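import Pool.Agent.LibKF.Main
import Pool.Agent.LibKY.H4
import Pool.Agent.LibKM.Z4

/-!
THEOREM K×: the factors of the product.
-/

set_option autoImplicit false

open Pool.Agent.LibGMM Pool.Agent.LibGMC Pool.Agent.LibCov80 Pool.Agent.LibK Pool.Agent.LibKC
  Pool.Agent.LibKX Pool.Agent.LibKY Pool.Agent.LibKM Pool.Agent.LibKF Pool.Agent.LibL

namespace Pool.Agent.LibKZ

/-- `A` is the function field of a factor of the product, and `T` is a set of prime divisors over
the factor:
* a curve or surface, `T` is the set of all prime divisors over it (divisorial valuations of `A`);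
* a toric variety, `s` coordinates on the torus, `T` consists of the prime divisors of the affine
  space with coordinates `s` and of all toric prime divisors (monomial valuations);
* a normal projective variety `V` which is a Mori dream space, or has an effective canonical divisor
  and only semiample effective divisors, `T` is the set of the prime divisors of `V`. -/
def IsFactor {A : Type} [Field A] [Algebra ℂ A] (T : Set (DVal A)) : Prop :=
  (T = {ν | ν.Divisorial} ∧ ∃ Y : NormalModel A, IsQuotient Y) ∨
    (∃ (m : ℕ) (s : Fin (m + 1) → A), IsAff s ∧ T = aff s ∪ {ν | ∃ w, IsMono s w ν}) ∨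
      ∃ V : NormalModel A, T = primes V ∧ (IsMDS V ∨ AllSemiample V ∧ EffCanonical V)

theorem IsFactor.good {A : Type} [Field A] [Algebra ℂ A] {T : Set (DVal A)}
    (h : IsFactor T) : GoodFactor T := by
  rcases h with ⟨rfl, Y, hY⟩ | ⟨m, s, hs, rfl⟩ | ⟨V, rfl, hV⟩
  · obtain ⟨σ, hσ, y, hy, hT⟩ := exists_goodTG Y (TT := Set.univ)
      (fun S hS _ hd => (baseInterface hY).2 S hS hd)
    refine ⟨σ, hσ, y, hy, GoodTG.mono (fun ν hν => ?_) hT⟩
    exact ⟨Set.mem_univ _, hν⟩
  · exact ⟨Fin (m + 1), inferInstance, s, isNor_of_isAff hs, goodTG_toric hs⟩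
  · obtain ⟨σ, hσ, y, hy, hT⟩ := exists_goodTG V (baseInterfaceOn_primes V hV)
    refine ⟨σ, hσ, y, hy, GoodTG.mono (fun ν hν => ?_) hT⟩
    exact ⟨hν, LibKP.divisorial_of_prime hν⟩

end Pool.Agent.LibKZ
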